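import Pool.Agent.H46.OP.La
import Pool.Agent.H85.OP.Ind
import Pool.Agent.H85.OU.ZB

/-!
# Row OPLb (project OP): the level datum `A n = {y : H^n y ∈ SPn e (C (n+1))}`

`Hh = (1+x)/2 = W/U`; `H` is a unit of `ℚ⟦X⟧` (`Hh_mul_inv`).  From `hf : LForm` take `r0 e0`, `h0 : LD ℚ r0 e0`,
`f U^(-k) ∈ SP e0`; `LD_x` (file H85/OP/Ind) gives `r e`, `h : LD ℚ r e`, `SP e0 ⊆ SP e`, `x ∈ SP e`.  `h.bounds` gives `c0`: `1 ∈ SPn c0`,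
`e l * e l' ∈ SPn c0`, `δ(e l) ∈ SPn c0` (`δ = del ℚ`).  So `SPn a * SPn b ⊆ SPn (a+b+c0)` (`ZB_mul`), `δ SPn a ⊆ SPn (a+c0+1)`
(`MPg_del`).  `x, f U^(-k), δ Hh` lie in some `SPn` (`MPg_SP'`; `δ Hh = (1/2) δ x ∈ SP e` by `MPg_SP_del`/`LD.del_mem`), so there
are `cH, cd, cφ` with `Hh * SPn a ⊆ SPn (a + cH)`, `δ Hh * SPn a ⊆ SPn (a + cd)`, `f U^(-k) ∈ SPn cφ`, `C(1/8)(1 - x) ∈ SPn cH`.
Let `C = c0 + 2 cH + cd + cφ + 1` and `A n = {y | Hh^n * y ∈ SPn e (C (n+1))}` (a submodule: `MPg_add`, `MPg_zero`, scalars: `evl (C a)`).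
* mono: `H^(n+1) y = H (H^n y) ∈ SPn (C(n+1) + cH) ⊆ SPn (C(n+2))`; induction.
* `1 ∈ A 0`; `t ∈ A 1`: `Hh_tq`; `phiW f k ∈ A k`: `H^k f W^(-k) = f U^(-k)` (`Hh_mul_Winv`, `mul_pow`).
* mul: `H^(a+b+2) y z = H² (H^a y)(H^b z) ∈ SPn (C(a+1) + C(b+1) + c0 + 2 cH) ⊆ SPn (C (a+b+3))`; so `y z ∈ A (a+b+2)`.
* del: with `w = H^a y`: `H^(a+3) δ_W y = H^(a+1) δ y` (`Hh_sq_delW`) and `H^(a+1) δ y = H δ w - a (δ H) w`
  (`δ w = δ(H^a) y + H^a δ y`, `H δ(H^a) = a H^a δ H`), in `SPn (C(a+1) + c0 + 1 + cH + cd) ⊆ SPn (C(a+4))`; so `δ_W y ∈ A (a+3)`.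
* `c = k + 3`.  fin: `R = (C+1) r`, `b_(a,l) = Hh⁻¹^n λ^a e_l` for `a < (C+1)(n+1)`, `l < r` (`finProdFinEquiv`, `Fin.cast`):
  if `H^n y = ∑_l evl(p_l) e_l`, `deg p_l ≤ C(n+1)`, then `y = Hh⁻¹^n ∑_l ∑_(a ≤ C(n+1)) (p_l)_a λ^a e_l` (`Polynomial.aeval_eq_sum_range'`).
-/

open PowerSeries

namespace Pool.Agent.H46.OP

open Pool.Agent.H85.OT Pool.Agent.H85.OU Pool.Agent.H85.OP

/-- `SPn` as a submodule -/
noncomputable def Lb_S {r : ℕ} (e : Fin r → ℚ⟦X⟧) (n : ℕ) : Submodule ℚ ℚ⟦X⟧ where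
  carrier := SPn ℚ e n
  add_mem' := fun ha hb => MPg_add ha hb
  zero_mem' := MPg_zero
  smul_mem' := by
    intro c y hy
    have h1 := MPg_evl_mul (Polynomial.C c) (d := 0) (Polynomial.natDegree_C c).le hy
    rw [add_zero, evl, Polynomial.aeval_C, ← Algebra.smul_def] at h1
    exact h1

theorem Lb_mem {r : ℕ} {e : Fin r → ℚ⟦X⟧} {n : ℕ} {y : ℚ⟦X⟧} : y ∈ Lb_S e n ↔ y ∈ SPn ℚ e n :=
  Iff.rfl

/-- the filtration -/
noncomputable def Lb_A {r : ℕ} (e : Fin r → ℚ⟦X⟧) (C n : ℕ) : Submodule ℚ ℚ⟦X⟧ :=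
  (Lb_S e (C * (n + 1))).comap (LinearMap.mulLeft ℚ (Hh ^ n))

theorem Lb_memA {r : ℕ} {e : Fin r → ℚ⟦X⟧} {C n : ℕ} {y : ℚ⟦X⟧} :
    y ∈ Lb_A e C n ↔ Hh ^ n * y ∈ SPn ℚ e (C * (n + 1)) := Iff.rfl

theorem Lb_fin {r : ℕ} (e : Fin r → ℚ⟦X⟧) (C n : ℕ) :
    ∃ b : Fin ((C + 1) * r * (n + 1)) → ℚ⟦X⟧,
      Lb_A e C n ≤ Submodule.span ℚ (Set.range b) := by
  have hN : (C + 1) * r * (n + 1) = ((C + 1) * (n + 1)) * r := by ring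
  refine ⟨fun i => Hh⁻¹ ^ n * (lam ℚ ^ ((finProdFinEquiv.symm (Fin.cast hN i)).1 : ℕ) *
    e (finProdFinEquiv.symm (Fin.cast hN i)).2), ?_⟩
  intro y hy
  rw [Lb_memA] at hy
  obtain ⟨p, hp, hy⟩ := hy
  have h1 : y = Hh⁻¹ ^ n * ∑ l, evl ℚ (p l) * e l := by
    rw [← hy, ← mul_assoc, ← mul_pow, mul_comm Hh⁻¹, Hh_mul_inv, one_pow, one_mul]
  rw [h1, Finset.mul_sum]
  refine Submodule.sum_mem _ fun l _ => ?_
  have hlt : (p l).natDegree < (C + 1) * (n + 1) := by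
    have := hp l
    nlinarith
  rw [evl, Polynomial.aeval_eq_sum_range' hlt, Finset.sum_mul, Finset.mul_sum]
  refine Submodule.sum_mem _ fun a ha => ?_
  rw [smul_mul_assoc, mul_smul_comm]
  refine Submodule.smul_mem _ _ (Submodule.subset_span ?_)
  refine ⟨Fin.cast hN.symm (finProdFinEquiv (⟨a, Finset.mem_range.1 ha⟩, l)), ?_⟩
  simp

theorem Lb_sub {r : ℕ} {e : Fin r → ℚ⟦X⟧} {n : ℕ} {y z : ℚ⟦X⟧} (hy : y ∈ SPn ℚ e n)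
    (hz : z ∈ SPn ℚ e n) : y - z ∈ SPn ℚ e n := by
  rw [sub_eq_add_neg]
  exact MPg_add hy (ZB_neg hz)

theorem lev_of_LForm (f : ℤ⟦X⟧) (k : ℕ) (hf : LForm ℚ k (PowerSeries.map (Int.castRingHom ℚ) f)) :
    ∃ (R c : ℕ) (A : ℕ → Submodule ℚ ℚ⟦X⟧), Lev (phiW f k) R c A := by
  obtain ⟨r0, e0, hLD0, hf0, -, -, -⟩ := hf
  obtain ⟨r, e, h, hsub, hx⟩ := LD_x (K := ℚ) two_ne_zero hLD0
  obtain ⟨c0, h1, hm, hd, -⟩ := h.bounds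
  have hfe := hsub _ hf0
  obtain ⟨cφ, hcφ⟩ := MPg_SP' hfe
  -- `Hh` and `(1-x)/8`
  have hone : (1 : ℚ⟦X⟧) ∈ SP ℚ e := h.one
  have hC : ∀ c : ℚ, ∀ y ∈ SP ℚ e, PowerSeries.C c * y ∈ SP ℚ e := by
    intro c y hy
    have h3 := SP_evl_mul (Polynomial.C c) hy
    rwa [evl, Polynomial.aeval_C] at h3
  have hHs : Hh ∈ SP ℚ e := hC _ _ (SP_add hone hx)
  have hss : PowerSeries.C (1 / 8 : ℚ) * (1 - xx ℚ) ∈ SP ℚ e := by
    refine hC _ _ ?_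
    rw [sub_eq_add_neg]
    exact SP_add hone (SP_neg hx)
  have hdHs : del ℚ Hh ∈ SP ℚ e := h.del_mem two_ne_zero hHs
  obtain ⟨a1, ha1⟩ := MPg_SP' hHs
  obtain ⟨a2, ha2⟩ := MPg_SP' hss
  obtain ⟨a3, ha3⟩ := MPg_SP' hdHs
  obtain ⟨cH, hcH⟩ : ∃ cH, cH = a1 + c0 + a2 := ⟨_, rfl⟩
  obtain ⟨cd, hcd⟩ : ∃ cd, cd = a3 + c0 := ⟨_, rfl⟩
  have hmulH : ∀ (m : ℕ) (y : ℚ⟦X⟧), y ∈ SPn ℚ e m → Hh * y ∈ SPn ℚ e (m + cH) := by
    intro m y hy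
    exact MPg_mono (by omega) (ZB_mul hm ha1 hy)
  have hmuld : ∀ (m : ℕ) (y : ℚ⟦X⟧), y ∈ SPn ℚ e m → del ℚ Hh * y ∈ SPn ℚ e (m + cd) := by
    intro m y hy
    exact MPg_mono (by omega) (ZB_mul hm ha3 hy)
  obtain ⟨C, hCd⟩ : ∃ C, C = c0 + 2 * cH + cd + cφ + 1 := ⟨_, rfl⟩
  have hstep : ∀ (n : ℕ) (y : ℚ⟦X⟧), y ∈ Lb_A e C n → y ∈ Lb_A e C (n + 1) := by
    intro n y hy
    rw [Lb_memA] at hy ⊢
    have h3 := hmulH _ _ hy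
    rw [← mul_assoc, ← pow_succ'] at h3
    refine MPg_mono ?_ h3
    have : C * (n + 1 + 1) = C * (n + 1) + C := by ring
    omega
  have hmono : ∀ {a b : ℕ}, a ≤ b → Lb_A e C a ≤ Lb_A e C b := by
    intro a b hab
    induction b, hab using Nat.le_induction with
    | base => exact le_rfl
    | succ b _ ih => exact ih.trans fun y hy => hstep b y hy
  refine ⟨(C + 1) * r, k + 3, Lb_A e C, hmono, ?_, ?_, ?_, ?_, ?_, ?_⟩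
  · refine hmono (Nat.zero_le _) ?_
    rw [Lb_memA, pow_zero, one_mul]
    exact MPg_mono (by rw [hCd]; omega) h1
  · refine hmono (a := 1) (by omega) ?_
    rw [Lb_memA, pow_one, Hh_tq]
    refine MPg_mono ?_ ha2
    have : C * (1 + 1) = C + C := by ring
    omega
  · refine hmono (a := k) (by omega) ?_
    rw [Lb_memA]
    have h3 : Hh ^ k * phiW f k = PowerSeries.map (Int.castRingHom ℚ) f * (U ℚ)⁻¹ ^ k := by
      rw [phiW, ← Hh_mul_Winv, mul_pow]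
      ring
    rw [h3]
    refine MPg_mono ?_ hcφ
    have : C * (k + 1) = C * k + C := by ring
    have h5 : cφ ≤ C := by omega
    omega
  · intro a b y z hy hz
    refine hmono (a := a + b + 2) (by omega) ?_
    rw [Lb_memA] at hy hz ⊢
    have h3 : Hh ^ (a + b + 2) * (y * z) = Hh * (Hh * ((Hh ^ a * y) * (Hh ^ b * z))) := by ring
    rw [h3]
    refine MPg_mono ?_ (hmulH _ _ (hmulH _ _ (ZB_mul hm hy hz)))
    have : C * (a + b + 2 + 1) = C * (a + 1) + C * (b + 1) + C := by ring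
    omega
  · intro a y hy
    refine hmono (a := a + 3) (by omega) ?_
    rw [Lb_memA] at hy ⊢
    obtain ⟨w, hw⟩ : ∃ w, w = Hh ^ a * y := ⟨_, rfl⟩
    rw [← hw] at hy
    have hdw := MPg_del (K := ℚ) two_ne_zero hd hy
    have h3 : Hh ^ (a + 3) * delW y = Hh * del ℚ w - (a : ℤ) * (del ℚ Hh * w) := by
      have h4 : Hh ^ (a + 3) * delW y = Hh ^ (a + 1) * del ℚ y := by
        rw [← Hh_sq_delW]
        ring
      rw [h4, hw, Dv.map_mul]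
      rcases a with _ | a
      · rw [pow_zero, Dv.map_one]
        push_cast
        ring
      · rw [Dv.map_pow]
        push_cast
        ring
    rw [h3]
    have h5 : Hh * del ℚ w ∈ SPn ℚ e (C * (a + 3 + 1)) := by
      refine MPg_mono ?_ (hmulH _ _ hdw)
      have : C * (a + 3 + 1) = C * (a + 1) + 3 * C := by ring
      omega
    have h6 : ((a : ℤ) : ℚ⟦X⟧) * (del ℚ Hh * w) ∈ SPn ℚ e (C * (a + 3 + 1)) := by
      refine ZB_int (MPg_mono ?_ (hmuld _ _ hy)) _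
      have : C * (a + 3 + 1) = C * (a + 1) + 3 * C := by ring
      omega
    exact Lb_sub h5 h6
  · intro n
    exact Lb_fin e C n

end Pool.Agent.H46.OP
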