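import Pool.Agent.H46.OP.Ze
import Pool.Agent.H46.OP.Lb
import Pool.Agent.H68.OP.Cr
import Pool.Agent.H74.OP.Bfin

/-!
# Project OP: the core theorem
-/

open PowerSeries

namespace Pool.Agent.H46.OP

open Pool.Agent.H85.OT Pool.Agent.H85.OU

/-- the core theorem: odd integral power series `≠ 0` which are forms of weight `≥ 3` -/
theorem core : Pool.Agent.H85.OP.Core := by
  refine Pool.Agent.H68.OP.core_of ?_
  intro f k hk hf hodd hne
  obtain ⟨κ, rfl⟩ : ∃ κ, k = κ + 2 := ⟨k - 2, by omega⟩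
  have hκ : 1 ≤ κ := by omega
  obtain ⟨R, c, A, hA⟩ := lev_of_LForm f (κ + 2) hf
  exact ⟨Pool.Agent.H74.OP.two_adic f κ hκ hodd hA,
    zeroEst f κ hκ hf hne (hodd 0 (dvd_zero 2))⟩

end Pool.Agent.H46.OP
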