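import Pool.Agent.H85.OT.CDef
import Pool.Agent.H85.OT.ADef
import Pool.Agent.H85.OU.Bol

/-!
# Definitions for the project OP (ordinary primes by 2-adic overconvergence)

Everything over `ℚ`.
* `Wq = U(q²)` (`= (U+V)/2 = θ₃(q²)²`), `sq = (U - V)/8`, `tq = sq / Wq`, `delW = Wq^(-2) q d/dq`, `zW = D Wq / Wq³`,
  `GW = 16 tq² (1 - 16 tq²)`;
* `T1 f κ = F1 f / Wq^κ`, `phiW f k = f / Wq^k`;
* `Int2 y` : all coefficients of `y` are 2-integral;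
* `Evn y`, `Odn y` : only even, only odd exponents;
* `Lev φ R c A` : filtered ring (level datum) containing `1, tq, φ`, stable under `delW`;
* `Mon f κ H n i j l = Wq^(n + 3H - i - 3j - κl) sq^i (D Wq)^j (F1 f)^l`;
* `Ix κ L n = Fin (n+1) × Fin (κ L + 1) × Fin (L + 1)`, `Ph f κ L n (i,j,l) = Mon f κ (2κL) n i j l`;
* `PhS f κ L n t = ∑_s t_s Ph_s`;
* `TwoAd f κ`, `ZeroEst f κ` : output of the 2-adic part, and the zero estimate.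
-/

open PowerSeries

namespace Pool.Agent.H46.OP

open Pool.Agent.H85.OT Pool.Agent.H85.OU

/-- `W = U(q²)` -/
noncomputable def Wq : ℚ⟦X⟧ := dbl ℚ (U ℚ)

/-- `s = (U - V)/8` -/
noncomputable def sq : ℚ⟦X⟧ := PowerSeries.C (1 / 8 : ℚ) * (U ℚ - V ℚ)

/-- `t = s/W` -/
noncomputable def tq : ℚ⟦X⟧ := sq * Wq⁻¹

/-- `W^(-2) q d/dq` -/
noncomputable def delW : Dv ℚ⟦X⟧ where
  toFun f := Wq⁻¹ ^ 2 * Dq ℚ f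
  add' a b := by rw [_root_.map_add, mul_add]
  mul' a b := by
    rw [Derivation.leibniz, smul_eq_mul, smul_eq_mul]
    ring

theorem delW_apply (f : ℚ⟦X⟧) : delW f = Wq⁻¹ ^ 2 * Dq ℚ f := rfl

/-- `z = D W / W³` -/
noncomputable def zW : ℚ⟦X⟧ := Dq ℚ Wq * Wq⁻¹ ^ 3

/-- `G = 16 t² (1 - 16 t²)` -/
noncomputable def GW : ℚ⟦X⟧ := 16 * tq ^ 2 * (1 - 16 * tq ^ 2)

/-- `T1 = F1 f / W^κ` -/
noncomputable def T1 (f : ℤ⟦X⟧) (κ : ℕ) : ℚ⟦X⟧ := F1 f * Wq⁻¹ ^ κ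

/-- `φ = f / W^k` -/
noncomputable def phiW (f : ℤ⟦X⟧) (k : ℕ) : ℚ⟦X⟧ :=
  PowerSeries.map (Int.castRingHom ℚ) f * Wq⁻¹ ^ k

/-- all coefficients are 2-integral -/
def Int2 (y : ℚ⟦X⟧) : Prop := ∀ n, padicNorm 2 (PowerSeries.coeff n y) ≤ 1

/-- only even exponents -/
def Evn (y : ℚ⟦X⟧) : Prop := ∀ n, ¬ 2 ∣ n → PowerSeries.coeff n y = 0

/-- only odd exponents -/
def Odn (y : ℚ⟦X⟧) : Prop := ∀ n, 2 ∣ n → PowerSeries.coeff n y = 0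

/-- level datum: a filtered ring containing `1, t, φ`, stable under `delW` -/
structure Lev (φ : ℚ⟦X⟧) (R c : ℕ) (A : ℕ → Submodule ℚ ℚ⟦X⟧) : Prop where
  mono : ∀ {a b : ℕ}, a ≤ b → A a ≤ A b
  one : (1 : ℚ⟦X⟧) ∈ A c
  tmem : tq ∈ A c
  pmem : φ ∈ A c
  mul : ∀ {a b : ℕ} {y z : ℚ⟦X⟧}, y ∈ A a → z ∈ A b → y * z ∈ A (a + b + c)
  del : ∀ {a : ℕ} {y : ℚ⟦X⟧}, y ∈ A a → delW y ∈ A (a + c)
  fin : ∀ n : ℕ, ∃ b : Fin (R * (n + 1)) → ℚ⟦X⟧, A n ≤ Submodule.span ℚ (Set.range b)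

/-- `W^(n + 3H - i - 3j - κl) s^i (D W)^j (F1 f)^l` -/
noncomputable def Mon (f : ℤ⟦X⟧) (κ H n i j l : ℕ) : ℚ⟦X⟧ :=
  Wq ^ (n + 3 * H - i - 3 * j - κ * l) * sq ^ i * (Dq ℚ Wq) ^ j * F1 f ^ l

/-- the index set -/
abbrev Ix (κ L n : ℕ) : Type := Fin (n + 1) × Fin (κ * L + 1) × Fin (L + 1)

/-- the functions `Mon f κ (2κL) n i j l`, `i ≤ n`, `j ≤ κL`, `l ≤ L` -/
noncomputable def Ph (f : ℤ⟦X⟧) (κ L n : ℕ) (s : Ix κ L n) : ℚ⟦X⟧ :=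
  Mon f κ (2 * κ * L) n (s.1 : ℕ) (s.2.1 : ℕ) (s.2.2 : ℕ)

/-- `∑ t_s Ph_s` -/
noncomputable def PhS (f : ℤ⟦X⟧) (κ L n : ℕ) (t : Ix κ L n → ℤ) : ℚ⟦X⟧ :=
  ∑ s, PowerSeries.C (t s : ℚ) * Ph f κ L n s

/-- modulo `2^m` the `Ph_s` are 2-integral elements of a space of small dimension -/
def TwoAd (f : ℤ⟦X⟧) (κ : ℕ) : Prop :=
  ∃ C : ℕ, ∀ L n m : ℕ, ∃ b : Fin ((2 * κ * L + 1) * (C * (n + m + L + 1))) → ℚ⟦X⟧,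
    ∀ s : Ix κ L n, ∃ y ∈ Submodule.span ℚ (Set.range b), Int2 y ∧
      ∃ w, Int2 w ∧ Ph f κ L n s = y + PowerSeries.C ((2 : ℚ) ^ m) * w

/-- the zero estimate -/
def ZeroEst (f : ℤ⟦X⟧) (κ : ℕ) : Prop :=
  ∃ R1 : ℕ, ∀ L : ℕ, ∃ CL : ℕ, ∀ (n : ℕ) (t : Ix κ L n → ℤ), t ≠ 0 →
    ∃ l ≤ R1 * (L + 1) ^ 2 * n + CL, PowerSeries.coeff l (PhS f κ L n t) ≠ 0

end Pool.Agent.H46.OP
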