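import Pool.Agent.H46.OP.Defs
import Pool.Agent.H85.OT.Fld

/-!
# Project OP: relations between the normalisations by `U` and by `W`

`Hh = W/U = (1+x)/2`.
-/

open PowerSeries

namespace Pool.Agent.H46.OP

open Pool.Agent.H85.OT Pool.Agent.H85.OU

/-- `(1+x)/2` -/
noncomputable def Hh : ℚ⟦X⟧ := PowerSeries.C (1 / 2 : ℚ) * (1 + xx ℚ)

theorem two_half : (2 : ℚ⟦X⟧) * PowerSeries.C (1 / 2 : ℚ) = 1 := by
  have h8 : (2 : ℚ⟦X⟧) = PowerSeries.C (2 : ℚ) := (map_ofNat _ 2).symm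
  rw [h8, ← map_mul]
  norm_num

theorem eight_inv : (8 : ℚ⟦X⟧) * PowerSeries.C (1 / 8 : ℚ) = 1 := by
  have h8 : (8 : ℚ⟦X⟧) = PowerSeries.C (8 : ℚ) := (map_ofNat _ 8).symm
  rw [h8, ← map_mul]
  norm_num

theorem Wq_eq : Wq = U ℚ * Hh := by
  have h1 := dbl_U ℚ two_ne_zero
  have h2 : (2 : ℚ⟦X⟧) ≠ 0 := by
    intro h
    have h3 := two_half
    rw [h, zero_mul] at h3
    exact zero_ne_one h3
  apply mul_left_cancel₀ h2
  rw [Wq, h1, Hh]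
  linear_combination (-(U ℚ) * (1 + xx ℚ)) * two_half

theorem constCoeff_Hh : PowerSeries.constantCoeff Hh = 1 := by
  rw [Hh, map_mul, map_add, map_one, constCoeff_xx, PowerSeries.constantCoeff_C]
  norm_num

theorem constCoeff_Wq : PowerSeries.constantCoeff Wq = 1 := by
  rw [Wq_eq, map_mul, constCoeff_U, constCoeff_Hh, mul_one]

theorem Hh_mul_inv : Hh * Hh⁻¹ = 1 := by
  apply PowerSeries.mul_inv_cancel
  rw [constCoeff_Hh]
  exact one_ne_zero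

theorem Wq_mul_inv : Wq * Wq⁻¹ = 1 := by
  apply PowerSeries.mul_inv_cancel
  rw [constCoeff_Wq]
  exact one_ne_zero

theorem Hh_ne_zero : Hh ≠ 0 := by
  intro h
  have h1 := constCoeff_Hh
  rw [h, map_zero] at h1
  exact zero_ne_one h1

theorem Wq_ne_zero : Wq ≠ 0 := by
  intro h
  have h1 := constCoeff_Wq
  rw [h, map_zero] at h1
  exact zero_ne_one h1

/-- `H W⁻¹ = U⁻¹` -/
theorem Hh_mul_Winv : Hh * Wq⁻¹ = (U ℚ)⁻¹ := by
  have h1 := Wq_mul_inv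
  have h2 := U_mul_inv ℚ
  apply mul_left_cancel₀ (U_ne_zero ℚ)
  rw [h2, ← mul_assoc, ← Wq_eq, h1]

theorem sq_eq : sq = U ℚ * (PowerSeries.C (1 / 8 : ℚ) * (1 - xx ℚ)) := by
  rw [sq, ← xx_mul_U]
  ring

/-- `8 H t = 1 - x` -/
theorem Hh_tq : Hh * tq = PowerSeries.C (1 / 8 : ℚ) * (1 - xx ℚ) := by
  have h2 := U_mul_inv ℚ
  rw [tq, sq_eq]
  linear_combination (U ℚ * (PowerSeries.C (1 / 8 : ℚ) * (1 - xx ℚ))) * Hh_mul_Winv +
    (PowerSeries.C (1 / 8 : ℚ) * (1 - xx ℚ)) * h2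

/-- `H² δ_W = δ_U` -/
theorem Hh_sq_delW (y : ℚ⟦X⟧) : Hh ^ 2 * delW y = del ℚ y := by
  rw [delW_apply, Pool.Agent.H85.OT.del_apply]
  have h := Hh_mul_Winv
  linear_combination (Hh * Wq⁻¹ + (U ℚ)⁻¹) * Dq ℚ y * h

/-- `D W = U³ (z H + δ H)` -/
theorem Dq_Wq : Dq ℚ Wq = U ℚ ^ 3 * (zz ℚ * Hh + del ℚ Hh) := by
  rw [Wq_eq, Derivation.leibniz, smul_eq_mul, smul_eq_mul, Dq_U, Pool.Agent.H85.OT.del_apply, zz]
  have h2 := U_mul_inv ℚ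
  linear_combination (-(U ℚ * Dq ℚ Hh) * (U ℚ * (U ℚ)⁻¹ + 1) -
    (Hh * ee ℚ * U ℚ) * (U ℚ * (U ℚ)⁻¹ + 1)) * h2

theorem sq_zero : PowerSeries.coeff 0 sq = 0 := by
  rw [sq, PowerSeries.coeff_C_mul, map_sub, PowerSeries.coeff_zero_eq_constantCoeff_apply,
    PowerSeries.coeff_zero_eq_constantCoeff_apply, constCoeff_U, constCoeff_V, sub_self, mul_zero]

theorem sq_one : PowerSeries.coeff 1 sq = 1 := by
  rw [sq, PowerSeries.coeff_C_mul, map_sub, fld_dU, fld_dV]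
  norm_num

end Pool.Agent.H46.OP
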