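import Pool.Agent.H49.OP.Shid
import Pool.Agent.H85.OU.MPg
import Pool.Agent.H85.OU.ID2

/-!
# Row OPZa (project OP): the Shidlovsky lemma for `K[λ]` and `δ = U^(-2) q d/dq`

`shidlovsky` (file H88/OP/Sf, row SHf; use its statement) with `d = del K`, `ev = evl K` (as a ring hom), `dP P = X (1 - X) P'`
(a `Dv (Polynomial K)`: `Polynomial.derivative_mul`), `c0 = 1`.  The structure `SD` (file H88/OP/Sd):
* `van`, `lead`: `del K y = U⁻² * Dq y`, coefficient `l` of `Dq y` is `l * coeff l y` (`coeff_Dq`), and `U⁻²` has constant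
  coefficient `1`: `PowerSeries.coeff_mul`; coefficient `s` of a product `a * b` with `coeff l b = 0` for `l < s` is
  `coeff 0 a * coeff s b`.
* `ev_d`: `MPg_del_evl`.  `deg`: `natDegree (X (1 - X) P') ≤ natDegree P + 1`.
* `ord`: `P(λ)` with `P ≠ 0`: `λ = lam K` has constant coefficient `0` and `coeff 1 λ ≠ 0` (`coeff_one_xx : coeff 1 x = -8`,
  `λ = 1 - x²`, so `coeff 1 λ = 16`); if `P = ∑_(j ≥ m) p_j X^j`, `p_m ≠ 0` (`m = natTrailingDegree P ≤ natDegree P`) then
  `coeff m (P(λ)) = p_m 16^m`; or use `ord_xx`-like statements in OT (`ord_lam`?), see how `ID2_inj` is proved.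
Index types: `ι` finite; put `e : ι ≃ Fin (card ι)`, `y' = y ∘ e.symm`, `B` from `hy` (`choose`).
-/

open PowerSeries

namespace Pool.Agent.H46.OP

open Pool.Agent.H85.OT Pool.Agent.H85.OU

/-- span of a finite family with coefficients `P(λ)`, `deg P ≤ n` -/
def SPi {K : Type*} [Field K] {ι : Type*} [Fintype ι] (y : ι → K⟦X⟧) (n : ℕ) : Set K⟦X⟧ :=
  {R | ∃ p : ι → Polynomial K, (∀ i, (p i).natDegree ≤ n) ∧ R = ∑ i, evl K (p i) * y i}

theorem Za_hd {K : Type*} [Field K] (s : ℕ) (f : K⟦X⟧) (hf : ∀ l < s, PowerSeries.coeff l f = 0) :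
    (∀ l < s, PowerSeries.coeff l (del K f) = 0) ∧
      PowerSeries.coeff s (del K f) = s * PowerSeries.coeff s f := by
  have hD : ∀ l < s, PowerSeries.coeff l (Dq K f) = 0 := by
    intro l hl
    rw [coeff_Dq, hf l hl, mul_zero]
  refine ⟨?_, ?_⟩
  · intro l hl
    rw [del_apply, PowerSeries.coeff_mul]
    refine Finset.sum_eq_zero fun a ha => ?_
    have h1 : a.2 < s := by
      have := Finset.HasAntidiagonal.mem_antidiagonal.mp ha
      omega
    rw [hD _ h1, mul_zero]
  · rw [del_apply, PowerSeries.coeff_mul]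
    rw [Finset.sum_eq_single (0, s)]
    · have h2 : PowerSeries.coeff 0 ((U K)⁻¹ ^ 2) = 1 := by
        rw [PowerSeries.coeff_zero_eq_constantCoeff_apply, map_pow]
        have h3 : PowerSeries.constantCoeff ((U K)⁻¹) = 1 := by
          rw [PowerSeries.constantCoeff_inv, constCoeff_U, inv_one]
        rw [h3, one_pow]
      rw [h2, one_mul, coeff_Dq]
    · intro b hb hb0
      have h1 : b.2 < s := by
        have h4 := Finset.HasAntidiagonal.mem_antidiagonal.mp hb
        rcases Nat.eq_or_lt_of_le (by omega : b.2 ≤ s) with h5 | h5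
        · exfalso
          apply hb0
          ext
          · simp only; omega
          · exact h5
        · exact h5
      rw [hD _ h1, mul_zero]
    · intro h
      exact absurd (Finset.HasAntidiagonal.mem_antidiagonal.mpr (by simp)) h

theorem zel {K : Type*} [Field K] [CharZero K] {ι : Type*} [Fintype ι] (y : ι → K⟦X⟧) (c : ℕ)
    (hy : ∀ i, del K (y i) ∈ SPi y c) :
    ∃ C0 : ℕ, ∀ (n : ℕ) (R : K⟦X⟧), R ∈ SPi y n → R ≠ 0 →
      ∃ l ≤ Fintype.card ι * n + C0, PowerSeries.coeff l R ≠ 0 := by
  have h2 : (2 : K) ≠ 0 := two_ne_zero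
  choose B hB hy2 using hy
  let e : ι ≃ Fin (Fintype.card ι) := Fintype.equivFin ι
  have hmain := Pool.Agent.H49.OP.shidlovsky (r := Fintype.card ι) (del K) Za_hd
    ((evl K : Polynomial K →ₐ[K] K⟦X⟧) : Polynomial K →+* K⟦X⟧) 1
    (by
      intro P
      refine ⟨Polynomial.X * (1 - Polynomial.X) * Polynomial.derivative P, ?_, ?_⟩
      · by_cases h0 : P.natDegree = 0
        · rw [Polynomial.derivative_of_natDegree_zero h0, mul_zero, Polynomial.natDegree_zero]
          exact Nat.zero_le _
        · refine Polynomial.natDegree_mul_le.trans ?_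
          have h3 := Polynomial.natDegree_derivative_le P
          have h4 : (Polynomial.X * (1 - Polynomial.X) : Polynomial K).natDegree ≤ 2 := by
            refine Polynomial.natDegree_mul_le.trans ?_
            have h5 : (1 - Polynomial.X : Polynomial K).natDegree ≤ 1 := by
              refine (Polynomial.natDegree_sub_le _ _).trans ?_
              simp
            have h6 : (Polynomial.X : Polynomial K).natDegree ≤ 1 := Polynomial.natDegree_X_le
            omega
          omega
      · exact (MPg_del_evl h2 P).symm)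
    (by
      intro P hP
      exact ord_lam h2 P hP P.natDegree le_rfl)
    (fun j => y (e.symm j)) (fun i j => B (e.symm i) (e.symm j))
    (by
      intro i
      rw [hy2 (e.symm i)]
      exact (Equiv.sum_comp e.symm (fun k => evl K (B (e.symm i) k) * y k)).symm)
  obtain ⟨C0, hC0⟩ := hmain
  refine ⟨C0, ?_⟩
  rintro n R ⟨p, hp, rfl⟩ hR
  have hs : ∑ i, evl K (p i) * y i = ∑ j, ((evl K : Polynomial K →ₐ[K] K⟦X⟧) : Polynomial K →+* K⟦X⟧) (p (e.symm j)) * y (e.symm j) :=
    (Equiv.sum_comp e.symm (fun k => evl K (p k) * y k)).symm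
  rw [hs] at hR ⊢
  exact hC0 n (fun j => p (e.symm j)) (fun j => hp _) hR

end Pool.Agent.H46.OP
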