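import Pool.Agent.H46.OP.La
import Pool.Agent.H46.OP.Za
import Pool.Agent.H85.OP.Ind
import Pool.Agent.H85.OU.ZB

/-!
# Row OPZb (project OP): the family `U^H z^j T^l e_m` is stable under `δ`

`z = zz ℚ`, `T = F U^(-κ)`, `Dq F = φ0`, `w0 = φ0 U^(-κ-2) ∈ SP e`, `δ = del ℚ`.  Formulas: `δ T = w0 - κ z T` (`del_T` in H85/OP/Ind),
`δ U = z U` (`δ U = U⁻² Dq U = U⁻² ee U`, `zz = ee U⁻²`, `Dq_U`), so `δ (U^H) = H z U^H`;
`δ z = evl(g) - z²`, `g = C(1/4) X (1 - X)` (from `Dq_zz`, `U_mul_inv`; `x² = 1 - λ`, `lam = 1 - x²`).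
For `j + κ l ≤ H`:
`δ(U^H z^j T^l e_m) = U^H [(H - j - κ l) z^(j+1) T^l e_m + j g z^(j-1) T^l e_m + l z^j T^(l-1) (w0 e_m) + z^j T^l δ e_m]`.
* `fam_mem`: for `w ∈ SPn e n`, `j + κ l ≤ H`: `U^H z^j T^l w ∈ SPi (fam ..) n` (`w = ∑ evl(p_m) e_m`; the family member `(j,l,m)` is
  `U^H z^j T^l e_m`; note `j ≤ H`, and `l ≤ H` because `κ ≥ 1`).
* `fam_del`: all four terms by `fam_mem` (`w0 e_m ∈ SPn (cw + c0 + 0)`: `ZB_mul`, `MPg_gen`; if `j + κ l = H` the first term is zero,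
  otherwise `j + 1 + κ l ≤ H`; for `j = 0`, `l = 0` the second, third term is zero); the members with `j + κ l > H` are `0`.
  `SPi` is closed under addition, under `evl P *` (degree adds) and monotone in the degree (prove these small lemmas for `SPi`).
-/

open PowerSeries

namespace Pool.Agent.H46.OP

open Pool.Agent.H85.OT Pool.Agent.H85.OU

/-- the family `U^H z^j T^l e_m`, `j + κ l ≤ H` (zero otherwise) -/
noncomputable def fam {r : ℕ} (e : Fin r → ℚ⟦X⟧) (F : ℚ⟦X⟧) (κ H : ℕ)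
    (i : Fin (H + 1) × Fin (H / κ + 1) × Fin r) : ℚ⟦X⟧ :=
  if (i.1 : ℕ) + κ * (i.2.1 : ℕ) ≤ H then
    U ℚ ^ H * zz ℚ ^ (i.1 : ℕ) * (F * (U ℚ)⁻¹ ^ κ) ^ (i.2.1 : ℕ) * e i.2.2 else 0

theorem SPi_mono {K : Type*} [Field K] {ι : Type*} [Fintype ι] {y : ι → K⟦X⟧} {a b : ℕ}
    (h : a ≤ b) {R : K⟦X⟧} (hR : R ∈ SPi y a) : R ∈ SPi y b := by
  obtain ⟨p, hp, rfl⟩ := hR
  exact ⟨p, fun i => (hp i).trans h, rfl⟩

theorem SPi_add {K : Type*} [Field K] {ι : Type*} [Fintype ι] {y : ι → K⟦X⟧} {a : ℕ}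
    {R S : K⟦X⟧} (hR : R ∈ SPi y a) (hS : S ∈ SPi y a) : R + S ∈ SPi y a := by
  obtain ⟨p, hp, rfl⟩ := hR
  obtain ⟨q, hq, rfl⟩ := hS
  refine ⟨fun l => p l + q l,
    fun l => (Polynomial.natDegree_add_le _ _).trans (max_le (hp l) (hq l)), ?_⟩
  rw [← Finset.sum_add_distrib]
  exact Finset.sum_congr rfl fun l _ => by rw [map_add, add_mul]

theorem Zb_zero {K : Type*} [Field K] {ι : Type*} [Fintype ι] {y : ι → K⟦X⟧} {a : ℕ} :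
    (0 : K⟦X⟧) ∈ SPi y a :=
  ⟨fun _ => 0, fun _ => by rw [Polynomial.natDegree_zero]; exact Nat.zero_le _, by simp⟩

theorem SPi_sum {K : Type*} [Field K] {ι : Type*} [Fintype ι] {y : ι → K⟦X⟧} {a : ℕ}
    {τ : Type*} (s : Finset τ) (R : τ → K⟦X⟧) (hR : ∀ i ∈ s, R i ∈ SPi y a) :
    ∑ i ∈ s, R i ∈ SPi y a := by
  classical
  induction s using Finset.induction_on with
  | empty => rw [Finset.sum_empty]; exact Zb_zero
  | insert b s hb ih =>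
    rw [Finset.sum_insert hb]
    exact SPi_add (hR b (Finset.mem_insert_self b s))
      (ih fun i hi => hR i (Finset.mem_insert_of_mem hi))

theorem SPi_evl {K : Type*} [Field K] {ι : Type*} [Fintype ι] {y : ι → K⟦X⟧} {a b : ℕ}
    (P : Polynomial K) (hP : P.natDegree ≤ b) {R : K⟦X⟧} (hR : R ∈ SPi y a) :
    evl K P * R ∈ SPi y (a + b) := by
  obtain ⟨p, hp, rfl⟩ := hR
  refine ⟨fun l => P * p l, fun l => ?_, ?_⟩
  · refine Polynomial.natDegree_mul_le.trans ?_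
    have := hp l
    omega
  · rw [Finset.mul_sum]
    exact Finset.sum_congr rfl fun l _ => by rw [map_mul, mul_assoc]

theorem Zb_gen {K : Type*} [Field K] {ι : Type*} [Fintype ι] (y : ι → K⟦X⟧) (i : ι) :
    y i ∈ SPi y 0 := by
  classical
  refine ⟨fun j => if j = i then 1 else 0, fun j => ?_, ?_⟩
  · dsimp only
    split_ifs
    · rw [Polynomial.natDegree_one]
    · rw [Polynomial.natDegree_zero]
  · rw [Finset.sum_eq_single i]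
    · dsimp only
      rw [if_pos rfl, map_one, one_mul]
    · intro j _ hj
      dsimp only
      rw [if_neg hj, map_zero, zero_mul]
    · intro h
      exact absurd (Finset.mem_univ i) h

theorem Zb_pow {R : Type*} [CommRing R] (d : Dv R) (a : R) (n : ℕ) :
    d (a ^ n) = (n : R) * a ^ (n - 1) * d a := by
  rcases n with _ | n
  · rw [pow_zero, d.map_one]
    simp
  · rw [Nat.add_sub_cancel]
    induction n with
    | zero => simp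
    | succ n ih =>
      rw [pow_succ, d.map_mul, ih]
      push_cast
      ring

theorem Zb_powc {R : Type*} [CommRing R] (d : Dv R) {a c : R} (h : d a = c * a) (n : ℕ) :
    d (a ^ n) = (n : R) * c * a ^ n := by
  rw [Zb_pow, h]
  rcases n with _ | n
  · simp
  · rw [Nat.add_sub_cancel]
    ring

theorem fam_mem {r : ℕ} (e : Fin r → ℚ⟦X⟧) (F : ℚ⟦X⟧) (κ H : ℕ) (hκ : 0 < κ) (j l n : ℕ)
    (hjl : j + κ * l ≤ H) {w : ℚ⟦X⟧} (hw : w ∈ SPn ℚ e n) :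
    U ℚ ^ H * zz ℚ ^ j * (F * (U ℚ)⁻¹ ^ κ) ^ l * w ∈ SPi (fam e F κ H) n := by
  obtain ⟨p, hp, rfl⟩ := hw
  rw [Finset.mul_sum]
  refine SPi_sum _ _ fun m _ => ?_
  have hj : j < H + 1 := by
    have := Nat.zero_le (κ * l)
    omega
  have hl : l < H / κ + 1 := by
    have h1 : κ * l ≤ H := by omega
    have h2 : l ≤ H / κ := (Nat.le_div_iff_mul_le hκ).2 (by rw [mul_comm]; exact h1)
    omega
  have h3 : U ℚ ^ H * zz ℚ ^ j * (F * (U ℚ)⁻¹ ^ κ) ^ l * e m =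
      fam e F κ H (⟨j, hj⟩, ⟨l, hl⟩, m) := by
    unfold fam
    rw [if_pos hjl]
  have h4 : U ℚ ^ H * zz ℚ ^ j * (F * (U ℚ)⁻¹ ^ κ) ^ l * (evl ℚ (p m) * e m) =
      evl ℚ (p m) * fam e F κ H (⟨j, hj⟩, ⟨l, hl⟩, m) := by
    rw [← h3]
    ring
  rw [h4]
  have h5 := SPi_evl (p m) (hp m) (Zb_gen (fam e F κ H) (⟨j, hj⟩, ⟨l, hl⟩, m))
  rwa [zero_add] at h5

theorem fam_del {r : ℕ} {e : Fin r → ℚ⟦X⟧} (h : LD ℚ r e) (F φ0 : ℚ⟦X⟧) (κ H : ℕ) (hκ : 0 < κ)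
    (hF : Dq ℚ F = φ0) (hφ : φ0 * (U ℚ)⁻¹ ^ (κ + 2) ∈ SP ℚ e) :
    ∃ c : ℕ, ∀ i, del ℚ (fam e F κ H i) ∈ SPi (fam e F κ H) c := by
  obtain ⟨c0, h1, hm, hd, -⟩ := h.bounds
  obtain ⟨nw, hw⟩ := MPg_SP' hφ
  have hU : del ℚ (U ℚ) = zz ℚ * U ℚ := by
    rw [Pool.Agent.H85.OT.del_apply, Dq_U, zz]
    ring
  obtain ⟨g, hg⟩ : ∃ g : Polynomial ℚ,
    g = Polynomial.C (1 / 4) * (Polynomial.X * (1 - Polynomial.X)) := ⟨_, rfl⟩
  have hgd : g.natDegree ≤ 2 := by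
    rw [hg]
    refine (Polynomial.natDegree_C_mul_le _ _).trans ?_
    refine Polynomial.natDegree_mul_le.trans ?_
    have h6 : (Polynomial.X : Polynomial ℚ).natDegree ≤ 1 := Polynomial.natDegree_X_le
    have h7 : (1 - Polynomial.X : Polynomial ℚ).natDegree ≤ 1 := by
      refine (Polynomial.natDegree_sub_le _ _).trans ?_
      rw [Polynomial.natDegree_one]
      exact max_le (Nat.zero_le _) h6
    omega
  have hz : del ℚ (zz ℚ) = evl ℚ g - zz ℚ ^ 2 := by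
    have h3 := Dq_zz ℚ two_ne_zero
    have h4 := Zest_inv (K := ℚ)
    have h5 : (4 : ℚ⟦X⟧) * algebraMap ℚ ℚ⟦X⟧ (1 / 4) = 1 := by
      have h8 : (4 : ℚ⟦X⟧) = algebraMap ℚ ℚ⟦X⟧ 4 := (map_ofNat _ 4).symm
      rw [h8, ← map_mul, ← map_one (algebraMap ℚ ℚ⟦X⟧)]
      norm_num
    have h6 : (4 : ℚ⟦X⟧) ≠ 0 := by
      intro h9
      rw [h9, zero_mul] at h5
      exact zero_ne_one h5
    apply mul_left_cancel₀ h6
    have h7 : evl ℚ g = algebraMap ℚ ℚ⟦X⟧ (1 / 4) * (lam ℚ * (1 - lam ℚ)) := by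
      rw [hg, evl, map_mul, map_mul, map_sub, map_one, Polynomial.aeval_X, Polynomial.aeval_C]
    rw [Pool.Agent.H85.OT.del_apply, h7]
    unfold lam
    linear_combination (U ℚ)⁻¹ ^ 2 * h3 + (xx ℚ ^ 2 * (1 - xx ℚ ^ 2) - 4 * zz ℚ ^ 2) * h4 -
      (xx ℚ ^ 2 * (1 - xx ℚ ^ 2)) * h5
  have hT := Pool.Agent.H85.OP.del_T (K := ℚ) κ hκ F φ0 hF
  obtain ⟨T, hTd⟩ : ∃ T, T = F * (U ℚ)⁻¹ ^ κ := ⟨_, rfl⟩
  obtain ⟨w0, hw0⟩ : ∃ w0, w0 = φ0 * (U ℚ)⁻¹ ^ (κ + 2) := ⟨_, rfl⟩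
  rw [← hTd, ← hw0] at hT
  rw [← hw0] at hw
  have hUH : del ℚ (U ℚ ^ H) = (H : ℚ⟦X⟧) * zz ℚ * U ℚ ^ H := Zb_powc _ hU H
  have hzj : ∀ j : ℕ, del ℚ (zz ℚ ^ j) =
      (j : ℚ⟦X⟧) * evl ℚ g * zz ℚ ^ (j - 1) - (j : ℚ⟦X⟧) * zz ℚ ^ (j + 1) := by
    intro j
    rw [Zb_pow, hz]
    rcases j with _ | j
    · simp
    · rw [Nat.add_sub_cancel]
      ring
  have hTl : ∀ l : ℕ, del ℚ (T ^ l) =
      (l : ℚ⟦X⟧) * T ^ (l - 1) * w0 - (l : ℚ⟦X⟧) * (κ : ℚ⟦X⟧) * zz ℚ * T ^ l := by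
    intro l
    rw [Zb_pow, hT]
    rcases l with _ | l
    · simp
    · rw [Nat.add_sub_cancel]
      ring
  have hform : ∀ (j l : ℕ) (w : ℚ⟦X⟧), del ℚ (U ℚ ^ H * zz ℚ ^ j * T ^ l * w) =
      ((H : ℚ⟦X⟧) - j - κ * l) * (U ℚ ^ H * zz ℚ ^ (j + 1) * T ^ l * w) +
      (j : ℚ⟦X⟧) * evl ℚ g * (U ℚ ^ H * zz ℚ ^ (j - 1) * T ^ l * w) +
      (l : ℚ⟦X⟧) * (U ℚ ^ H * zz ℚ ^ j * T ^ (l - 1) * (w0 * w)) +
      U ℚ ^ H * zz ℚ ^ j * T ^ l * del ℚ w := by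
    intro j l w
    rw [Dv.map_mul, Dv.map_mul, Dv.map_mul, hUH, hzj, hTl]
    ring
  have hnat : ∀ (N : ℕ) {n : ℕ} {R : ℚ⟦X⟧}, R ∈ SPi (fam e F κ H) n →
      (N : ℚ⟦X⟧) * R ∈ SPi (fam e F κ H) n := by
    intro N n R hR
    have h3 := SPi_evl (b := 0) (N : Polynomial ℚ) (Polynomial.natDegree_natCast N).le hR
    rwa [map_natCast, add_zero] at h3
  have hmem : ∀ (j l n : ℕ) (w : ℚ⟦X⟧), j + κ * l ≤ H → w ∈ SPn ℚ e n →
      U ℚ ^ H * zz ℚ ^ j * T ^ l * w ∈ SPi (fam e F κ H) n := by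
    intro j l n w hjl hw'
    rw [hTd]
    exact fam_mem e F κ H hκ j l n hjl hw'
  refine ⟨nw + c0 + 2, ?_⟩
  rintro ⟨⟨j, hj⟩, ⟨l, hl⟩, m⟩
  by_cases hjl : j + κ * l ≤ H
  · have hf : fam e F κ H (⟨j, hj⟩, ⟨l, hl⟩, m) = U ℚ ^ H * zz ℚ ^ j * T ^ l * e m := by
      rw [hTd]
      unfold fam
      rw [if_pos hjl]
    rw [hf, hform]
    have ht1 : ((H : ℚ⟦X⟧) - j - κ * l) * (U ℚ ^ H * zz ℚ ^ (j + 1) * T ^ l * e m) ∈
        SPi (fam e F κ H) (nw + c0 + 2) := by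
      rcases Nat.eq_or_lt_of_le hjl with heq | hlt
      · have h8 : (H : ℚ⟦X⟧) - j - κ * l = 0 := by
          rw [← heq]
          push_cast
          ring
        rw [h8, zero_mul]
        exact Zb_zero
      · obtain ⟨N, hN⟩ : ∃ N, H = j + κ * l + N := ⟨H - (j + κ * l), by omega⟩
        have h8 : (H : ℚ⟦X⟧) - j - κ * l = (N : ℚ⟦X⟧) := by
          have h9 : (H : ℚ⟦X⟧) = ((j + κ * l + N : ℕ) : ℚ⟦X⟧) := by rw [← hN]
          rw [h9]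
          push_cast
          ring
        rw [h8]
        exact SPi_mono (Nat.zero_le _) (hnat N (hmem (j + 1) l 0 (e m) (by omega) (MPg_gen m)))
    have ht2 : (j : ℚ⟦X⟧) * evl ℚ g * (U ℚ ^ H * zz ℚ ^ (j - 1) * T ^ l * e m) ∈
        SPi (fam e F κ H) (nw + c0 + 2) := by
      rw [mul_assoc]
      refine hnat j (SPi_mono (by omega : 0 + 2 ≤ nw + c0 + 2) (SPi_evl g hgd
        (hmem (j - 1) l 0 (e m) (by omega) (MPg_gen m))))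
    have ht3 : (l : ℚ⟦X⟧) * (U ℚ ^ H * zz ℚ ^ j * T ^ (l - 1) * (w0 * e m)) ∈
        SPi (fam e F κ H) (nw + c0 + 2) := by
      have h8 : j + κ * (l - 1) ≤ H :=
        (Nat.add_le_add_left (Nat.mul_le_mul_left κ (Nat.sub_le l 1)) j).trans hjl
      exact hnat l (SPi_mono (by omega) (hmem j (l - 1) (nw + 0 + c0) (w0 * e m) h8
        (ZB_mul hm hw (MPg_gen m))))
    have ht4 : U ℚ ^ H * zz ℚ ^ j * T ^ l * del ℚ (e m) ∈
        SPi (fam e F κ H) (nw + c0 + 2) :=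
      SPi_mono (by omega) (hmem j l c0 _ hjl (hd m))
    exact SPi_add (SPi_add (SPi_add ht1 ht2) ht3) ht4
  · have hf : fam e F κ H (⟨j, hj⟩, ⟨l, hl⟩, m) = 0 := by
      unfold fam
      rw [if_neg hjl]
    rw [hf, Dv.map_zero]
    exact Zb_zero

end Pool.Agent.H46.OP
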