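import Pool.Agent.H46.OP.Zb

/-!
# Row OPZc (project OP): the functions `Mon` in terms of the family

`H` = the height, `i ≤ n`, `j + κ l ≤ H`, `a = n + 3H - i - 3j - κl` (`i + 3j + κl ≤ n + 3H`).  `Wq = U Hh` (`Wq_eq`),
`sq = U (C(1/8)(1-x))` (`sq_eq`), `Dq Wq = U³ (z Hh + δ Hh)` (`Dq_Wq`), `F1 f = U^κ (F1 f U^(-κ))` (`U_mul_inv`).  So
`Mon f κ H n i j l = U^(a + i + 3j + κl) Hh^a (C(1/8)(1-x))^i (z Hh + δ Hh)^j T^l`, `T = F1 f U^(-κ)`, and `a + i + 3j + κl = n + 3H = (n + 2H) + H`.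
`(z Hh + δ Hh)^j = ∑_(b ≤ j) z^b (Hh^b (δ Hh)^(j-b) choose)` (`add_pow`), `b + κ l ≤ H`, so by `fam_mem` it is enough that
`w = Hh^a (C(1/8)(1-x))^i Hh^b (δ Hh)^(j-b) (choose) ∈ SPn e (c1 * n + C)` with `c1` depending only on `e` (not on `H`) and `C` on `H`:
`Hh`, `C(1/8)(1-x)`, `δ Hh` lie in `SP e` (`x ∈ SP e`, `LD.del_mem`), so multiplication by each of them maps `SPn m` to `SPn (m + cH)` for one
constant `cH` (`ZB_mul`, `MPg_SP'`, `LD.bounds`), and `1 ∈ SPn c0`; the total number of factors is `a + i + j ≤ n + 4H`, so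
`w ∈ SPn (c0 + cH (n + 4H))`; `c1 = cH`.
-/

open PowerSeries

namespace Pool.Agent.H46.OP

open Pool.Agent.H85.OT Pool.Agent.H85.OU

private theorem Zc_pow {r : ℕ} {e : Fin r → ℚ⟦X⟧} {c0 cH cg : ℕ}
    (hm : ∀ l l', e l * e l' ∈ SPn ℚ e c0) {g : ℚ⟦X⟧} (hg : g ∈ SPn ℚ e cg)
    (hc : cg + c0 ≤ cH) (a : ℕ) {m : ℕ} {w : ℚ⟦X⟧} (hw : w ∈ SPn ℚ e m) :
    g ^ a * w ∈ SPn ℚ e (m + cH * a) := by
  induction a with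
  | zero =>
    rw [pow_zero, one_mul, Nat.mul_zero, Nat.add_zero]
    exact hw
  | succ a ih =>
    have h1 := ZB_mul hm hg ih
    have e1 : g ^ (a + 1) * w = g * (g ^ a * w) := by rw [pow_succ]; ring
    rw [e1]
    refine MPg_mono ?_ h1
    have e2 : cH * (a + 1) = cH * a + cH := by ring
    omega

private theorem Zc_const {r : ℕ} {e : Fin r → ℚ⟦X⟧} (c : ℚ) {y : ℚ⟦X⟧} (hy : y ∈ SP ℚ e) :
    PowerSeries.C c * y ∈ SP ℚ e := by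
  have h1 := SP_evl_mul (Polynomial.C c) hy
  rw [evl, Polynomial.aeval_C, PowerSeries.algebraMap_eq] at h1
  exact h1

private theorem Zc_Mon (f : ℤ⟦X⟧) (κ H n i j l : ℕ) (hi : i ≤ n) (hjl : j + κ * l ≤ H) :
    Mon f κ H n i j l = U ℚ ^ (n + 2 * H) * (U ℚ ^ H *
      (Hh ^ (n + 3 * H - i - 3 * j - κ * l) * (PowerSeries.C (1 / 8 : ℚ) * (1 - xx ℚ)) ^ i *
        (zz ℚ * Hh + del ℚ Hh) ^ j * (F1 f * (U ℚ)⁻¹ ^ κ) ^ l)) := by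
  obtain ⟨a, ha⟩ : ∃ a, a = n + 3 * H - i - 3 * j - κ * l := ⟨_, rfl⟩
  have hU := U_mul_inv ℚ
  have h3 : a + i + 3 * j + κ * l = n + 3 * H := by
    have : i + 3 * j + κ * l ≤ n + 3 * H := by omega
    omega
  have h4 : U ℚ ^ (n + 2 * H) * U ℚ ^ H = U ℚ ^ a * U ℚ ^ i * (U ℚ ^ 3) ^ j * (U ℚ ^ κ) ^ l := by
    rw [← pow_add, ← pow_mul, ← pow_mul, ← pow_add, ← pow_add, ← pow_add, h3]
    congr 1
    omega
  have h5 : (U ℚ ^ κ) ^ l * (F1 f * (U ℚ)⁻¹ ^ κ) ^ l = F1 f ^ l := by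
    rw [← mul_pow]
    congr 1
    rw [mul_left_comm, ← mul_pow, hU, one_pow, mul_one]
  have hW : Wq ^ a = U ℚ ^ a * Hh ^ a := by rw [Wq_eq, mul_pow]
  have hs : sq ^ i = U ℚ ^ i * (PowerSeries.C (1 / 8 : ℚ) * (1 - xx ℚ)) ^ i := by
    rw [sq_eq, mul_pow]
  have hD : (Dq ℚ Wq) ^ j = (U ℚ ^ 3) ^ j * (zz ℚ * Hh + del ℚ Hh) ^ j := by
    rw [Dq_Wq, mul_pow]
  unfold Mon
  rw [← ha, hW, hs, hD, ← h5]
  have e1 : U ℚ ^ (n + 2 * H) * (U ℚ ^ H *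
      (Hh ^ a * (PowerSeries.C (1 / 8 : ℚ) * (1 - xx ℚ)) ^ i *
        (zz ℚ * Hh + del ℚ Hh) ^ j * (F1 f * (U ℚ)⁻¹ ^ κ) ^ l)) =
      (U ℚ ^ (n + 2 * H) * U ℚ ^ H) *
      (Hh ^ a * (PowerSeries.C (1 / 8 : ℚ) * (1 - xx ℚ)) ^ i *
        (zz ℚ * Hh + del ℚ Hh) ^ j * (F1 f * (U ℚ)⁻¹ ^ κ) ^ l) := by ring
  rw [e1, h4]
  ring

theorem mon_mem {r : ℕ} {e : Fin r → ℚ⟦X⟧} (h : LD ℚ r e) (hx : xx ℚ ∈ SP ℚ e) :
    ∃ c1 : ℕ, ∀ (f : ℤ⟦X⟧) (κ H : ℕ), 0 < κ → ∃ C : ℕ, ∀ n i j l : ℕ, i ≤ n → j + κ * l ≤ H →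
      ∃ R ∈ SPi (fam e (F1 f) κ H) (c1 * n + C), Mon f κ H n i j l = U ℚ ^ (n + 2 * H) * R := by
  obtain ⟨c0, h1, hm, -, -⟩ := h.bounds
  have hneg : -xx ℚ ∈ SP ℚ e := by
    have h2 := Zc_const (-1) hx
    have e1 : PowerSeries.C (-1 : ℚ) * xx ℚ = -xx ℚ := by
      rw [map_neg, map_one]
      ring
    rwa [e1] at h2
  have hH : Hh ∈ SP ℚ e := Zc_const _ (SP_add h.one hx)
  have hG : PowerSeries.C (1 / 8 : ℚ) * (1 - xx ℚ) ∈ SP ℚ e := by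
    rw [sub_eq_add_neg]
    exact Zc_const _ (SP_add h.one hneg)
  have hD : del ℚ Hh ∈ SP ℚ e := h.del_mem two_ne_zero hH
  obtain ⟨n1, hn1⟩ := MPg_SP' hH
  obtain ⟨n2, hn2⟩ := MPg_SP' hG
  obtain ⟨n3, hn3⟩ := MPg_SP' hD
  obtain ⟨cH, hcH⟩ : ∃ cH, cH = n1 + n2 + n3 + c0 := ⟨_, rfl⟩
  refine ⟨cH, fun f κ H hκ => ⟨c0 + cH * (3 * H), fun n i j l hi hjl => ?_⟩⟩
  refine ⟨_, ?_, Zc_Mon f κ H n i j l hi hjl⟩
  obtain ⟨a, ha⟩ : ∃ a, a = n + 3 * H - i - 3 * j - κ * l := ⟨_, rfl⟩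
  rw [← ha, add_pow]
  have e1 : U ℚ ^ H * (Hh ^ a * (PowerSeries.C (1 / 8 : ℚ) * (1 - xx ℚ)) ^ i *
      (∑ b ∈ Finset.range (j + 1), (zz ℚ * Hh) ^ b * del ℚ Hh ^ (j - b) * (j.choose b : ℚ⟦X⟧)) *
      (F1 f * (U ℚ)⁻¹ ^ κ) ^ l) =
      ∑ b ∈ Finset.range (j + 1), U ℚ ^ H * zz ℚ ^ b * (F1 f * (U ℚ)⁻¹ ^ κ) ^ l *
        (Hh ^ a * ((PowerSeries.C (1 / 8 : ℚ) * (1 - xx ℚ)) ^ i *
          (Hh ^ b * (del ℚ Hh ^ (j - b) * (((j.choose b : ℕ) : ℤ) : ℚ⟦X⟧) * 1)))) := by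
    rw [Finset.mul_sum, Finset.sum_mul, Finset.mul_sum]
    refine Finset.sum_congr rfl fun b _ => ?_
    rw [Int.cast_natCast, mul_pow]
    ring
  rw [e1]
  refine SPi_sum _ _ fun b hb => ?_
  have hbj : b ≤ j := by
    rw [Finset.mem_range] at hb
    omega
  have hb1 : b + κ * l ≤ H := by omega
  refine fam_mem e (F1 f) κ H hκ b l _ hb1 ?_
  have w0 : (((j.choose b : ℕ) : ℤ) : ℚ⟦X⟧) * 1 ∈ SPn ℚ e c0 := ZB_int h1 _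
  have w1 := Zc_pow hm hn3 (by omega : n3 + c0 ≤ cH) (j - b) w0
  have w2 := Zc_pow hm hn1 (by omega : n1 + c0 ≤ cH) b w1
  have w3 := Zc_pow hm hn2 (by omega : n2 + c0 ≤ cH) i w2
  have w4 := Zc_pow hm hn1 (by omega : n1 + c0 ≤ cH) a w3
  rw [← mul_assoc (del ℚ Hh ^ (j - b))] at w4
  refine MPg_mono ?_ w4
  have h7 : cH * n + (c0 + cH * (3 * H)) = c0 + cH * (n + 3 * H) := by ring
  have h8 : c0 + cH * (j - b) + cH * b + cH * i + cH * a = c0 + cH * ((j - b) + b + i + a) := by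
    ring
  rw [h7, h8]
  refine Nat.add_le_add_left (Nat.mul_le_mul_left _ ?_) _
  omega

end Pool.Agent.H46.OP
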