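import Pool.Agent.H46.OP.La
import Pool.Agent.H85.OP.Ind
import Pool.Agent.H85.OU.ZB

/-!
# Row OPZd (project OP): `PhS f κ L n t ≠ 0` for `t ≠ 0`

`H = 2κL`, `a(i,j,l) = n + 3H - i - 3j - κl`; `Mon f κ H n i j l = U^(n+3H) Hh^a σ^i (z Hh + η)^j T^l` with `σ = C(1/8)(1-x)`, `η = δ Hh`,
`T = F1 f U^(-κ)`, `z = zz ℚ` (`Wq_eq`, `sq_eq`, `Dq_Wq`, `U_mul_inv`; here `i + 3j + κl ≤ n + 3H` because `j ≤ κL`, `l ≤ L`).
Let `q(j,l) = ∑_i C(t(i,j,l)) Hh^(a(i,j,l)) σ^i`.  So `PhS = U^(n+3H) ∑_l (∑_j q(j,l) (z Hh + η)^j) T^l`.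
* `q_ne`: if `t(i,j,l) ≠ 0` for some `i` then `q(j,l) ≠ 0`: multiplied by `U^(n+3H-3j-κl)` it is `∑_i C(t_i) Wq^(a_i) sq^i`; let `i0` be the
  smallest `i` with `t_i ≠ 0`; the coefficient of `q^(i0)` is `t_(i0)` (`sq_zero`, `sq_one`, `constCoeff_Wq`: `sq = X * s'` with
  `constantCoeff s' = 1`).
* Polynomials over the ring `A = h.alg` (subalgebra `SP ℚ e`, `LD.alg`, `LD.mem_alg`): `Hh, σ, η, x ∈ A` (`x ∈ SP e`, `LD.del_mem`), so
  `q(j,l) ∈ A`.  `Q_l = (∑_(j ≤ κL) C q(j,l) X^j).comp (C Hh * X + C η) ∈ A[X]`; `Q_l ≠ 0` if some `q(j,l) ≠ 0` (`Hh ≠ 0`, `A` is a domain: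
  `Polynomial.comp_eq_zero_iff`, or the leading coefficient).  `P i l = ((Q_l).coeff i : ℚ⟦X⟧) ∈ SP e`.
* `∑_i P i l z^i = eval₂ Q_l at z = ∑_j q(j,l) (Hh z + η)^j` (`Polynomial.eval₂_eq_sum_range'`, `Polynomial.eval₂_comp`, degree of `Q_l ≤ κL`).
* `ind` (file H85/OP/Ind) with `L' = κL + L + 1` (`P i l = 0` for `l > L`), `f` replaced by `map f`, `F = F1 f`, `Dq (F1 f) = map f`
  (`coeff_Dq`; `a_0 = 0`) gives `∑ P i l z^i T^l ≠ 0`.
-/

open PowerSeries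

namespace Pool.Agent.H46.OP

open Pool.Agent.H85.OT Pool.Agent.H85.OU

/-- `σ = (1-x)/8` -/
private noncomputable def Zd_sg : ℚ⟦X⟧ := PowerSeries.C (1 / 8 : ℚ) * (1 - xx ℚ)

private theorem Zd_sq : sq = U ℚ * Zd_sg := sq_eq

/-- `sq = X s'`, `s'(0) = 1` -/
private theorem Zd_sX : ∃ s' : ℚ⟦X⟧, sq = PowerSeries.X * s' ∧ PowerSeries.coeff 0 s' = 1 := by
  have h1 : (PowerSeries.X : ℚ⟦X⟧) ∣ sq := by
    rw [PowerSeries.X_dvd_iff, ← PowerSeries.coeff_zero_eq_constantCoeff_apply]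
    exact sq_zero
  obtain ⟨s', hs'⟩ := h1
  refine ⟨s', hs', ?_⟩
  have h2 := sq_one
  rw [hs', show (1 : ℕ) = 0 + 1 from rfl, PowerSeries.coeff_succ_X_mul] at h2
  exact h2

/-- the combinations of the `Wq^(N-i) sq^i` are not zero -/
private theorem Zd_comb (n N : ℕ) (c : ℕ → ℚ) (i0 : ℕ) (hi0 : i0 < n) (hc : c i0 ≠ 0)
    (hmin : ∀ i < i0, c i = 0) :
    ∑ i ∈ Finset.range n, PowerSeries.C (c i) * Wq ^ (N - i) * sq ^ i ≠ 0 := by
  obtain ⟨s', hs', hs1⟩ := Zd_sX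
  intro h
  apply hc
  have h1 := congrArg (PowerSeries.coeff i0) h
  rw [map_sum, map_zero] at h1
  rw [Finset.sum_eq_single_of_mem i0 (Finset.mem_range.2 hi0)] at h1
  · have e1 : PowerSeries.C (c i0) * Wq ^ (N - i0) * sq ^ i0 =
        PowerSeries.X ^ i0 * (PowerSeries.C (c i0) * Wq ^ (N - i0) * s' ^ i0) := by
      rw [hs', mul_pow]
      ring
    rw [e1, PowerSeries.coeff_X_pow_mul', if_pos le_rfl, Nat.sub_self,
      PowerSeries.coeff_zero_eq_constantCoeff_apply, map_mul, map_mul, map_pow, map_pow,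
      constCoeff_Wq, PowerSeries.constantCoeff_C, one_pow, mul_one,
      ← PowerSeries.coeff_zero_eq_constantCoeff_apply, hs1, one_pow, mul_one] at h1
    exact h1
  · intro i _ hne
    rcases lt_or_gt_of_ne hne with hlt | hgt
    · rw [hmin i hlt, map_zero, zero_mul, zero_mul, map_zero]
    · have e1 : PowerSeries.C (c i) * Wq ^ (N - i) * sq ^ i =
          PowerSeries.X ^ i * (PowerSeries.C (c i) * Wq ^ (N - i) * s' ^ i) := by
        rw [hs', mul_pow]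
        ring
      rw [e1, PowerSeries.coeff_X_pow_mul', if_neg (by omega)]

private theorem Zd_comb' (n N : ℕ) (c : ℕ → ℚ) (hN : ∀ i < n, i ≤ N) (i1 : ℕ) (hi1 : i1 < n)
    (hc : c i1 ≠ 0) :
    ∑ i ∈ Finset.range n, PowerSeries.C (c i) * Hh ^ (N - i) * Zd_sg ^ i ≠ 0 := by
  classical
  have hex : ∃ i, i < n ∧ c i ≠ 0 := ⟨i1, hi1, hc⟩
  have h1 := Zd_comb n N c (Nat.find hex) (Nat.find_spec hex).1 (Nat.find_spec hex).2
    (fun i hi => by
      by_contra h2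
      exact Nat.find_min hex hi ⟨hi.trans (Nat.find_spec hex).1, h2⟩)
  intro h
  apply h1
  have e1 : ∑ i ∈ Finset.range n, PowerSeries.C (c i) * Wq ^ (N - i) * sq ^ i =
      U ℚ ^ N * ∑ i ∈ Finset.range n, PowerSeries.C (c i) * Hh ^ (N - i) * Zd_sg ^ i := by
    rw [Finset.mul_sum]
    refine Finset.sum_congr rfl fun i hi => ?_
    have hi' := hN i (Finset.mem_range.1 hi)
    have e2 : U ℚ ^ N = U ℚ ^ (N - i) * U ℚ ^ i := by
      rw [← pow_add]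
      congr 1
      omega
    rw [Wq_eq, Zd_sq, mul_pow, mul_pow, e2]
    ring
  rw [e1, h, mul_zero]

private theorem Zd_mon (f : ℤ⟦X⟧) (κ H n i j l : ℕ) (h : i + 3 * j + κ * l ≤ n + 3 * H) :
    Mon f κ H n i j l = U ℚ ^ (n + 3 * H) * (Hh ^ (n + 3 * H - i - 3 * j - κ * l) * Zd_sg ^ i *
      (zz ℚ * Hh + del ℚ Hh) ^ j * (F1 f * (U ℚ)⁻¹ ^ κ) ^ l) := by
  have hU := U_mul_inv ℚ
  have e1 : F1 f = (F1 f * (U ℚ)⁻¹ ^ κ) * U ℚ ^ κ := by
    rw [mul_assoc, ← mul_pow, mul_comm (U ℚ)⁻¹, hU, one_pow, mul_one]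
  have e2 : U ℚ ^ (n + 3 * H) = U ℚ ^ (n + 3 * H - i - 3 * j - κ * l) * U ℚ ^ i *
      (U ℚ ^ 3) ^ j * (U ℚ ^ κ) ^ l := by
    rw [← pow_mul, ← pow_mul, ← pow_add, ← pow_add, ← pow_add]
    congr 1
    omega
  rw [Mon, Dq_Wq, e2]
  conv_lhs => rw [e1]
  rw [Wq_eq, Zd_sq]
  simp only [mul_pow]
  ring

/-- the coefficients, extended by zero -/
private noncomputable def Zd_t {κ L n : ℕ} (t : Ix κ L n → ℤ) (i j l : ℕ) : ℚ :=
  if h : i < n + 1 ∧ j < κ * L + 1 ∧ l < L + 1 then (t (⟨i, h.1⟩, ⟨j, h.2.1⟩, ⟨l, h.2.2⟩) : ℚ)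
  else 0

private theorem Zd_t_fin {κ L n : ℕ} (t : Ix κ L n → ℤ) (s : Ix κ L n) :
    Zd_t t s.1 s.2.1 s.2.2 = t s := by
  rw [Zd_t, dif_pos ⟨s.1.2, s.2.1.2, s.2.2.2⟩]

private theorem Zd_sum {κ L n : ℕ} (g : ℕ → ℕ → ℕ → ℚ⟦X⟧) :
    ∑ s : Ix κ L n, g s.1 s.2.1 s.2.2 = ∑ l ∈ Finset.range (L + 1),
      ∑ j ∈ Finset.range (κ * L + 1), ∑ i ∈ Finset.range (n + 1), g i j l := by
  rw [Fintype.sum_prod_type, Finset.sum_comm]
  rw [Fintype.sum_prod_type, Finset.sum_comm]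
  rw [← Fin.sum_univ_eq_sum_range (fun l => ∑ j ∈ Finset.range (κ * L + 1),
    ∑ i ∈ Finset.range (n + 1), g i j l) (L + 1)]
  refine Finset.sum_congr rfl fun l _ => ?_
  rw [← Fin.sum_univ_eq_sum_range (fun j => ∑ i ∈ Finset.range (n + 1), g i j l) (κ * L + 1)]
  refine Finset.sum_congr rfl fun j _ => ?_
  rw [← Fin.sum_univ_eq_sum_range (fun i => g i j l) (n + 1)]

theorem Dq_F1 (f : ℤ⟦X⟧) (h0 : PowerSeries.coeff 0 f = 0) :
    Dq ℚ (F1 f) = PowerSeries.map (Int.castRingHom ℚ) f := by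
  ext n
  rw [coeff_Dq, F1, PowerSeries.coeff_mk, PowerSeries.coeff_map, eq_intCast]
  by_cases hn : n = 0
  · subst hn
    rw [h0, Nat.cast_zero, zero_mul, Int.cast_zero]
  · have h1 : (n : ℚ) ≠ 0 := by exact_mod_cast hn
    field_simp

theorem PhS_ne (f : ℤ⟦X⟧) (κ : ℕ) (hκ : 0 < κ)
    (hf : LForm ℚ (κ + 2) (PowerSeries.map (Int.castRingHom ℚ) f)) (hne : f ≠ 0)
    (h0 : PowerSeries.coeff 0 f = 0) (L n : ℕ) (t : Ix κ L n → ℤ) (ht : t ≠ 0) :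
    PhS f κ L n t ≠ 0 := by
  classical
  obtain ⟨r0, e0, hLD0, hf0, -, hd0, -⟩ := hf
  obtain ⟨r, e, hLD, hsub, hx⟩ := Pool.Agent.H85.OP.LD_x (K := ℚ) two_ne_zero hLD0
  have hfe := hsub _ hf0
  have hfQ : PowerSeries.map (Int.castRingHom ℚ) f ≠ 0 := by
    intro h
    apply hne
    ext m
    have h1 := congrArg (PowerSeries.coeff m) h
    rw [PowerSeries.coeff_map, map_zero, eq_intCast] at h1
    rw [map_zero]
    exact_mod_cast h1
  obtain ⟨⟨i1, j1, l1⟩, ht1⟩ : ∃ s, t s ≠ 0 := by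
    by_contra hcon
    push Not at hcon
    exact ht (funext hcon)
  set H : ℕ := 2 * κ * L with hH
  -- the degree bound
  have hdeg : ∀ i < n + 1, ∀ j < κ * L + 1, ∀ l < L + 1, i + 3 * j + κ * l ≤ n + 3 * H := by
    intro i hi j hj l hl
    have a1 : κ * l ≤ κ * L := Nat.mul_le_mul_left _ (by omega)
    have a2 : H = κ * L + κ * L := by rw [hH]; ring
    omega
  set T := F1 f * (U ℚ)⁻¹ ^ κ with hT
  set η := del ℚ Hh with hη
  -- the coefficients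
  let q : ℕ → ℕ → ℚ⟦X⟧ := fun j l => ∑ i ∈ Finset.range (n + 1),
    PowerSeries.C (Zd_t t i j l) * Hh ^ (n + 3 * H - i - 3 * j - κ * l) * Zd_sg ^ i
  have hq0 : ∀ j l, ¬ (j < κ * L + 1 ∧ l < L + 1) → q j l = 0 := by
    intro j l hjl
    refine Finset.sum_eq_zero fun i _ => ?_
    have : Zd_t t i j l = 0 := by
      rw [Zd_t, dif_neg]
      exact fun h => hjl h.2
    rw [this, map_zero, zero_mul, zero_mul]
  have hqne : ∀ i < n + 1, ∀ j < κ * L + 1, ∀ l < L + 1, Zd_t t i j l ≠ 0 → q j l ≠ 0 := by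
    intro i hi j hj l hl h1
    have h2 := Zd_comb' (n + 1) (n + 3 * H - 3 * j - κ * l) (fun i => Zd_t t i j l)
      (fun i hi => by
        have := hdeg i hi j hj l hl
        omega) i hi h1
    have h3 : q j l = ∑ i ∈ Finset.range (n + 1),
        PowerSeries.C (Zd_t t i j l) * Hh ^ (n + 3 * H - 3 * j - κ * l - i) * Zd_sg ^ i := by
      refine Finset.sum_congr rfl fun i _ => ?_
      congr 3
      omega
    rw [h3]
    exact h2
  have hPhS : PhS f κ L n t = U ℚ ^ (n + 3 * H) * ∑ l ∈ Finset.range (L + 1),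
      (∑ j ∈ Finset.range (κ * L + 1), q j l * (zz ℚ * Hh + η) ^ j) * T ^ l := by
    have e1 : PhS f κ L n t = ∑ s : Ix κ L n, (fun i j l => U ℚ ^ (n + 3 * H) *
        (PowerSeries.C (Zd_t t i j l) * Hh ^ (n + 3 * H - i - 3 * j - κ * l) * Zd_sg ^ i *
        (zz ℚ * Hh + η) ^ j * T ^ l)) (s.1 : ℕ) (s.2.1 : ℕ) (s.2.2 : ℕ) := by
      rw [PhS]
      refine Finset.sum_congr rfl fun s _ => ?_
      rw [Ph, Zd_mon f κ (2 * κ * L) n _ _ _ (hdeg _ s.1.2 _ s.2.1.2 _ s.2.2.2)]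
      change _ = U ℚ ^ (n + 3 * H) * (PowerSeries.C (Zd_t t s.1 s.2.1 s.2.2) * _ * _ * _ * _)
      rw [Zd_t_fin]
      ring
    rw [e1, Zd_sum (κ := κ) (L := L) (n := n) (fun i j l => U ℚ ^ (n + 3 * H) *
        (PowerSeries.C (Zd_t t i j l) * Hh ^ (n + 3 * H - i - 3 * j - κ * l) * Zd_sg ^ i *
        (zz ℚ * Hh + η) ^ j * T ^ l)), Finset.mul_sum]
    refine Finset.sum_congr rfl fun l _ => ?_
    rw [Finset.sum_mul, Finset.mul_sum]
    refine Finset.sum_congr rfl fun j _ => ?_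
    rw [Finset.sum_mul, Finset.sum_mul, Finset.mul_sum]
  -- the polynomials in `z`
  set L' : ℕ := κ * L + L + 1 with hL'
  let P : ℕ → ℕ → ℚ⟦X⟧ := fun i l => ∑ j ∈ Finset.range (κ * L + 1),
    q j l * (Hh ^ i * η ^ (j - i) * (j.choose i : ℚ⟦X⟧))
  have hzsum : ∀ l, ∑ i ∈ Finset.range L', P i l * zz ℚ ^ i =
      ∑ j ∈ Finset.range (κ * L + 1), q j l * (zz ℚ * Hh + η) ^ j := by
    intro l
    have e1 : ∀ i, P i l * zz ℚ ^ i = ∑ j ∈ Finset.range (κ * L + 1),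
        q j l * ((zz ℚ * Hh) ^ i * η ^ (j - i) * (j.choose i : ℚ⟦X⟧)) := by
      intro i
      change (∑ j ∈ Finset.range (κ * L + 1),
        q j l * (Hh ^ i * η ^ (j - i) * (j.choose i : ℚ⟦X⟧))) * zz ℚ ^ i = _
      rw [Finset.sum_mul]
      refine Finset.sum_congr rfl fun j _ => ?_
      rw [mul_pow]
      ring
    rw [Finset.sum_congr rfl fun i _ => e1 i, Finset.sum_comm]
    refine Finset.sum_congr rfl fun j hj => ?_
    rw [← Finset.mul_sum, add_pow]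
    congr 1
    symm
    refine Finset.sum_subset (Finset.range_subset_range.2 ?_) fun i _ hi => ?_
    · have := Finset.mem_range.1 hj
      omega
    · rw [Finset.mem_range, not_lt] at hi
      rw [Nat.choose_eq_zero_of_lt (by omega), Nat.cast_zero, mul_zero]
  -- membership
  have hH1 : Hh ∈ hLD.alg := by
    rw [Hh]
    have h1 : PowerSeries.C (1 / 2 : ℚ) ∈ hLD.alg := hLD.alg.algebraMap_mem (1 / 2 : ℚ)
    exact hLD.alg.mul_mem h1 (hLD.alg.add_mem hLD.alg.one_mem hx)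
  have hs1 : Zd_sg ∈ hLD.alg := by
    rw [Zd_sg]
    have h1 : PowerSeries.C (1 / 8 : ℚ) ∈ hLD.alg := hLD.alg.algebraMap_mem (1 / 8 : ℚ)
    exact hLD.alg.mul_mem h1 (hLD.alg.sub_mem hLD.alg.one_mem hx)
  have hη1 : η ∈ hLD.alg := hLD.del_mem two_ne_zero hH1
  have hqm : ∀ j l, q j l ∈ hLD.alg := by
    intro j l
    refine hLD.alg.sum_mem fun i _ => ?_
    have h1 : PowerSeries.C (Zd_t t i j l) ∈ hLD.alg := hLD.alg.algebraMap_mem (Zd_t t i j l)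
    exact hLD.alg.mul_mem (hLD.alg.mul_mem h1 (hLD.alg.pow_mem hH1 _)) (hLD.alg.pow_mem hs1 _)
  have hPm : ∀ i l, P i l ∈ hLD.alg := by
    intro i l
    refine hLD.alg.sum_mem fun j _ => ?_
    exact hLD.alg.mul_mem (hqm j l) (hLD.alg.mul_mem (hLD.alg.mul_mem (hLD.alg.pow_mem hH1 _)
      (hLD.alg.pow_mem hη1 _)) (natCast_mem _ _))
  -- a nonzero coefficient
  have hq1 : q j1 l1 ≠ 0 := by
    refine hqne i1 i1.2 j1 j1.2 l1 l1.2 ?_
    have h1 := Zd_t_fin t (i1, j1, l1)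
    rw [show Zd_t t (i1 : ℕ) (j1 : ℕ) (l1 : ℕ) = t (i1, j1, l1) from h1]
    exact_mod_cast ht1
  obtain ⟨j2, hj2, hq2, hmax⟩ : ∃ j2 < κ * L + 1, q j2 l1 ≠ 0 ∧ ∀ j, j2 < j → q j l1 = 0 := by
    obtain ⟨j2, hj2m, hj2x⟩ := Finset.exists_max_image
      ((Finset.range (κ * L + 1)).filter fun j => q j l1 ≠ 0) (fun j => j)
      ⟨j1, Finset.mem_filter.2 ⟨Finset.mem_range.2 j1.2, hq1⟩⟩
    rw [Finset.mem_filter, Finset.mem_range] at hj2m
    refine ⟨j2, hj2m.1, hj2m.2, fun j hj => ?_⟩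
    by_contra h1
    by_cases h2 : j < κ * L + 1
    · have := hj2x j (Finset.mem_filter.2 ⟨Finset.mem_range.2 h2, h1⟩)
      omega
    · exact h1 (hq0 j l1 fun h => h2 h.1)
  have hP2 : P j2 l1 ≠ 0 := by
    have e1 : P j2 l1 = q j2 l1 * Hh ^ j2 := by
      change ∑ j ∈ Finset.range (κ * L + 1),
        q j l1 * (Hh ^ j2 * η ^ (j - j2) * (j.choose j2 : ℚ⟦X⟧)) = _
      rw [Finset.sum_eq_single_of_mem j2 (Finset.mem_range.2 hj2)]
      · rw [Nat.sub_self, pow_zero, mul_one, Nat.choose_self, Nat.cast_one, mul_one]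
      · intro j _ hjne
        rcases lt_or_gt_of_ne hjne with hlt | hgt
        · rw [Nat.choose_eq_zero_of_lt hlt, Nat.cast_zero, mul_zero, mul_zero]
        · rw [hmax j hgt, zero_mul]
    rw [e1]
    exact mul_ne_zero hq2 (pow_ne_zero _ Hh_ne_zero)
  have hind := Pool.Agent.H85.OP.ind κ hκ hLD (PowerSeries.map (Int.castRingHom ℚ) f) hfe hd0 hfQ
    (F1 f) (Dq_F1 f h0) L' P (fun i _ l _ => hPm i l)
    ⟨j2, by omega, l1, by have := l1.2; omega, hP2⟩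
  have hsum : ∑ i ∈ Finset.range L', ∑ l ∈ Finset.range L', P i l * zz ℚ ^ i * T ^ l =
      ∑ l ∈ Finset.range (L + 1),
        (∑ j ∈ Finset.range (κ * L + 1), q j l * (zz ℚ * Hh + η) ^ j) * T ^ l := by
    rw [Finset.sum_comm]
    have e1 : ∀ l, ∑ i ∈ Finset.range L', P i l * zz ℚ ^ i * T ^ l =
        (∑ j ∈ Finset.range (κ * L + 1), q j l * (zz ℚ * Hh + η) ^ j) * T ^ l := by
      intro l
      rw [← hzsum l, Finset.sum_mul]
    rw [Finset.sum_congr rfl fun l _ => e1 l]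
    symm
    refine Finset.sum_subset (Finset.range_subset_range.2 (by omega)) fun l _ hl => ?_
    rw [Finset.mem_range] at hl
    rw [Finset.sum_eq_zero fun j _ => by rw [hq0 j l fun h => hl h.2, zero_mul], zero_mul]
  rw [hPhS, ← hsum]
  exact mul_ne_zero (pow_ne_zero _ (U_ne_zero ℚ)) hind

end Pool.Agent.H46.OP
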