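import Pool.Agent.H46.OP.Zc
import Pool.Agent.H46.OP.Zd

/-!
# Row OPZe (project OP): the zero estimate

Level datum with `x`: `LForm` gives `r0 e0`, `LD_x` gives `r e`.  `fam_del` (with `F = F1 f`, `Dq_F1`) and `zel`: constant `C0(H)`, `H = 2κL`,
for the family of `N = (H+1)(H/κ+1) r` elements.  `mon_mem`: `c1` (independent of `L`) and `C(H)`.  For `t ≠ 0`:
`PhS = U^(n+2H) R`, `R ∈ SPi fam (c1 n + C)` (sum, constants `C(t) = evl (C t)`), `R ≠ 0` by `PhS_ne`.  So some coefficient `l ≤ N (c1 n + C) + C0` of `R`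
is nonzero; `U^(n+2H)` has constant coefficient `1`, so the smallest such `l` is also a nonzero coefficient of `PhS`.
`H/κ = 2L` and `N ≤ (2κL + 1)(2L + 1) r ≤ 4 (κ+1) r (L+1)²`, so `R1 = 4 (κ+1) r c1`, `CL = N C + C0`.
-/

open PowerSeries

namespace Pool.Agent.H46.OP

open Pool.Agent.H85.OT Pool.Agent.H85.OU

private theorem Ze_coeff (m : ℕ) (R : ℚ⟦X⟧) (l : ℕ) (hl : ∀ l' < l, PowerSeries.coeff l' R = 0) :
    PowerSeries.coeff l (U ℚ ^ m * R) = PowerSeries.coeff l R := by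
  rw [PowerSeries.coeff_mul, Finset.sum_eq_single (0, l)]
  · simp only
    rw [PowerSeries.coeff_zero_eq_constantCoeff_apply, map_pow, constCoeff_U, one_pow, one_mul]
  · rintro ⟨a, b⟩ hz hne
    have h2 : a + b = l := Finset.HasAntidiagonal.mem_antidiagonal.1 hz
    have h3 : b < l := by
      rcases Nat.eq_zero_or_pos a with h | h
      · subst h
        exact absurd (by rw [← h2, zero_add]) hne
      · omega
    simp only
    rw [hl b h3, mul_zero]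
  · intro h
    exact absurd (Finset.HasAntidiagonal.mem_antidiagonal.2 (zero_add l)) h

theorem zeroEst (f : ℤ⟦X⟧) (κ : ℕ) (hκ : 0 < κ)
    (hf : LForm ℚ (κ + 2) (PowerSeries.map (Int.castRingHom ℚ) f)) (hne : f ≠ 0)
    (h0 : PowerSeries.coeff 0 f = 0) : ZeroEst f κ := by
  classical
  have hf' := hf
  obtain ⟨r0, e0, hLD0, hf0, -, -, -⟩ := hf
  obtain ⟨r, e, hLD, hsub, hx⟩ := Pool.Agent.H85.OP.LD_x (K := ℚ) two_ne_zero hLD0
  obtain ⟨c1, hc1⟩ := mon_mem hLD hx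
  refine ⟨4 * (κ + 1) * r * c1, fun L => ?_⟩
  obtain ⟨c, hc⟩ := fam_del hLD (F1 f) _ κ (2 * κ * L) hκ (Dq_F1 f h0) (hsub _ hf0)
  obtain ⟨C0, hC0⟩ := zel (fam e (F1 f) κ (2 * κ * L)) c hc
  obtain ⟨C, hC⟩ := hc1 f κ (2 * κ * L) hκ
  have hcard : Fintype.card (Fin (2 * κ * L + 1) × Fin (2 * κ * L / κ + 1) × Fin r)
      = (2 * κ * L + 1) * ((2 * L + 1) * r) := by
    have h1 : 2 * κ * L / κ = 2 * L := by
      rw [show 2 * κ * L = κ * (2 * L) by ring]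
      exact Nat.mul_div_cancel_left _ hκ
    simp [h1]
  rw [hcard] at hC0
  refine ⟨(2 * κ * L + 1) * ((2 * L + 1) * r) * C + C0, fun n t ht => ?_⟩
  have hex : ∀ s : Ix κ L n, ∃ R ∈ SPi (fam e (F1 f) κ (2 * κ * L)) (c1 * n + C),
      Ph f κ L n s = U ℚ ^ (n + 2 * (2 * κ * L)) * R := by
    intro s
    apply hC n (s.1 : ℕ) (s.2.1 : ℕ) (s.2.2 : ℕ) (Nat.lt_succ_iff.1 s.1.2)
    have h1 : (s.2.1 : ℕ) ≤ κ * L := Nat.lt_succ_iff.1 s.2.1.2
    have h2 : (s.2.2 : ℕ) ≤ L := Nat.lt_succ_iff.1 s.2.2.2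
    have h3 : κ * (s.2.2 : ℕ) ≤ κ * L := Nat.mul_le_mul_left _ h2
    have h4 : 2 * κ * L = κ * L + κ * L := by ring
    omega
  choose Rs hRs hPh using hex
  set R : ℚ⟦X⟧ := ∑ s, PowerSeries.C (t s : ℚ) * Rs s with hR
  have hPhS : PhS f κ L n t = U ℚ ^ (n + 2 * (2 * κ * L)) * R := by
    rw [PhS, hR, Finset.mul_sum]
    refine Finset.sum_congr rfl fun s _ => ?_
    rw [hPh]
    ring
  have hne' := PhS_ne f κ hκ hf' hne h0 L n t ht
  have hRne : R ≠ 0 := by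
    intro h
    rw [hPhS, h, mul_zero] at hne'
    exact hne' rfl
  have hRmem : R ∈ SPi (fam e (F1 f) κ (2 * κ * L)) (c1 * n + C) := by
    rw [hR]
    refine SPi_sum _ _ fun s _ => ?_
    have h1 := SPi_evl (Polynomial.C (t s : ℚ)) (b := 0) (by rw [Polynomial.natDegree_C])
      (hRs s)
    have h2 : evl ℚ (Polynomial.C (t s : ℚ)) = PowerSeries.C (t s : ℚ) := by
      rw [evl, Polynomial.aeval_C]
      rfl
    rw [h2] at h1
    exact h1
  obtain ⟨l0, hl0, hl0ne⟩ := hC0 _ R hRmem hRne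
  have hex2 : ∃ l, PowerSeries.coeff l R ≠ 0 := ⟨l0, hl0ne⟩
  refine ⟨Nat.find hex2, ?_, ?_⟩
  · refine (Nat.find_min' hex2 hl0ne).trans (hl0.trans ?_)
    have h5 : (2 * κ * L + 1) * ((2 * L + 1) * r) * (c1 * n)
        ≤ 4 * (κ + 1) * r * c1 * (L + 1) ^ 2 * n := by
      have h6 : (2 * κ * L + 1) * (2 * L + 1) ≤ 4 * (κ + 1) * (L + 1) ^ 2 := by nlinarith
      calc (2 * κ * L + 1) * ((2 * L + 1) * r) * (c1 * n)
          = ((2 * κ * L + 1) * (2 * L + 1)) * (r * c1 * n) := by ring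
        _ ≤ (4 * (κ + 1) * (L + 1) ^ 2) * (r * c1 * n) := Nat.mul_le_mul_right _ h6
        _ = 4 * (κ + 1) * r * c1 * (L + 1) ^ 2 * n := by ring
    calc (2 * κ * L + 1) * ((2 * L + 1) * r) * (c1 * n + C) + C0
        = (2 * κ * L + 1) * ((2 * L + 1) * r) * (c1 * n)
          + ((2 * κ * L + 1) * ((2 * L + 1) * r) * C + C0) := by ring
      _ ≤ 4 * (κ + 1) * r * c1 * (L + 1) ^ 2 * n
          + ((2 * κ * L + 1) * ((2 * L + 1) * r) * C + C0) := Nat.add_le_add_right h5 _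
  · rw [hPhS, Ze_coeff]
    · exact Nat.find_spec hex2
    · intro l' hl'
      by_contra h
      exact Nat.find_min hex2 hl' h

end Pool.Agent.H46.OP
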